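import Pool.Agent.Y811.PC.Stm4

set_option autoImplicit false

/-! # Cycles of `z ^ d + c`: basic facts for transversality -/

namespace Pool.Agent.Y421.PC

open Complex Metric Set Filter Topology Pool.Agent.H712R2 Pool.Agent.H713R2 N62a1eb23
open Pool.Agent.Y811.PC

theorem iter_succ (d : ℕ) (c z : ℂ) (j : ℕ) :
    (fc d c)^[j + 1] z = ((fc d c)^[j] z) ^ d + c := by
  rw [Function.iterate_succ_apply']
  rfl

/-- derivative of the iterates with respect to the point -/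
theorem der_iter (d : ℕ) (c z : ℂ) (n : ℕ) :
    HasDerivAt ((fc d c)^[n]) (∏ j ∈ Finset.range n, ((d : ℂ) * ((fc d c)^[j] z) ^ (d - 1))) z := by
  induction n with
  | zero => simpa using hasDerivAt_id z
  | succ n ih =>
    have h1 := (ih.pow d).add_const c
    rw [Finset.prod_range_succ, mul_comm]
    refine h1.congr_of_eventuallyEq (Eventually.of_forall fun w => ?_)
    exact iter_succ d c w n

theorem mu_eq (d m : ℕ) (c z : ℂ) :
    mu d m c z = ∏ j ∈ Finset.range m, ((d : ℂ) * ((fc d c)^[j] z) ^ (d - 1)) :=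
  (der_iter d c z m).deriv

/-- derivative of the iterates with respect to the parameter, along a curve of points -/
theorem der_par {d : ℕ} {c₀ : ℂ} {y : ℂ → ℂ} {y' : ℂ} (hy : HasDerivAt y y' c₀) (D : ℕ → ℂ)
    (h0 : D 0 = y') (hD : ∀ n, D (n + 1) = (d : ℂ) * ((fc d c₀)^[n] (y c₀)) ^ (d - 1) * D n + 1)
    (n : ℕ) : HasDerivAt (fun c => (fc d c)^[n] (y c)) (D n) c₀ := by
  induction n with
  | zero => rw [h0]; exact hy
  | succ n ih =>
    have h1 := (ih.pow d).add (hasDerivAt_id c₀)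
    rw [hD]
    refine h1.congr_of_eventuallyEq (Eventually.of_forall fun w => ?_)
    exact iter_succ d w (y w) n

section

variable {d m q : ℕ} {c₀ z₀ : ℂ}

theorem mu_norm (h : PD d m q c₀ z₀) : ‖mu d m c₀ z₀‖ = 1 :=
  Complex.norm_eq_one_of_pow_eq_one h.mul.pow_eq_one (by have := h.hq; omega)

theorem mu_ne (h : PD d m q c₀ z₀) : mu d m c₀ z₀ ≠ 0 := by
  rw [← norm_ne_zero_iff, mu_norm h]
  exact one_ne_zero

theorem b_per (h : PD d m q c₀ z₀) (j : ℕ) : (fc d c₀)^[j + m] z₀ = (fc d c₀)^[j] z₀ := by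
  rw [Function.iterate_add_apply]
  exact congrArg _ h.fix

theorem b_mod (h : PD d m q c₀ z₀) (j : ℕ) : (fc d c₀)^[j] z₀ = (fc d c₀)^[j % m] z₀ := by
  have h1 : ∀ k i : ℕ, (fc d c₀)^[i + k * m] z₀ = (fc d c₀)^[i] z₀ := by
    intro k
    induction k with
    | zero => intro i; simp
    | succ k ih =>
      intro i
      rw [Nat.succ_mul, ← add_assoc, b_per h, ih]
  have h2 := h1 (j / m) (j % m)
  rwa [Nat.mod_add_div' j m] at h2

theorem b_ne (h : PD d m q c₀ z₀) (j : ℕ) : (fc d c₀)^[j] z₀ ≠ 0 := by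
  have h1 : ∏ j ∈ Finset.range m, ((d : ℂ) * ((fc d c₀)^[j] z₀) ^ (d - 1)) ≠ 0 := by
    rw [← mu_eq]; exact mu_ne h
  have h2 := Finset.prod_ne_zero_iff.mp h1 (j % m)
    (Finset.mem_range.mpr (Nat.mod_lt _ (by have := h.hm; omega)))
  rw [b_mod h]
  intro h3
  apply h2
  rw [h3, zero_pow (by have := h.hd; omega), mul_zero]

theorem b_inj (h : PD d m q c₀ z₀) : ∀ i j, i < m → j < m →
    (fc d c₀)^[i] z₀ = (fc d c₀)^[j] z₀ → i = j := by
  have key : ∀ i j, i < j → j < m → (fc d c₀)^[i] z₀ ≠ (fc d c₀)^[j] z₀ := by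
    intro i j hij hj he
    have h1 := congrArg ((fc d c₀)^[m - j]) he
    rw [← Function.iterate_add_apply, ← Function.iterate_add_apply] at h1
    have h2 : m - j + j = m := by omega
    rw [h2] at h1
    exact h.per (m - j + i) (by omega) (by omega) (h1.trans h.fix)
  intro i j hi hj he
  rcases lt_trichotomy i j with h1 | h1 | h1
  · exact absurd he (key i j h1 hj)
  · exact h1
  · exact absurd he.symm (key j i h1 hi)

theorem f_ne (h : PD d m q c₀ z₀) (j : ℕ) : (d : ℂ) * ((fc d c₀)^[j] z₀) ^ (d - 1) ≠ 0 := by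
  refine mul_ne_zero ?_ (pow_ne_zero _ (b_ne h j))
  have := h.hd
  exact_mod_cast (by omega : d ≠ 0)

/-- the assembly of a cycle -/
theorem mk_cyc (h : PD d m q c₀ z₀) (β : ℕ → ℂ) (A : ℂ)
    (recu : ∀ j, β (j + 1) = β j / ((d : ℂ) * ((fc d c₀)^[j] z₀) ^ (d - 1)) -
      ((d : ℂ) - 1) * A / ((d : ℂ) * ((fc d c₀)^[j] z₀) ^ d))
    (h0 : β m = β 0) (hs : ∑ j ∈ Finset.range m, β (j + 1) = 0) :
    Cyc d m c₀ (fun j => (fc d c₀)^[j] z₀) β A := by
  have hper : ∀ j, β (j + m) = β j := by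
    intro j
    induction j with
    | zero => rw [zero_add]; exact h0
    | succ j ih =>
      have e1 : j + 1 + m = (j + m) + 1 := by ring
      rw [e1, recu, recu, ih, b_per h]
  refine ⟨h.hd, h.hm, fun j => iter_succ d c₀ z₀ j, b_per h, b_inj h, b_ne h, ?_, recu, hper, ?_⟩
  · rw [← mu_eq]; exact mu_norm h
  · have e1 := Finset.sum_range_succ β m
    have e2 := Finset.sum_range_succ' β m
    rw [hs, zero_add] at e2
    rw [e2, h0] at e1
    have e3 : β 0 = (∑ j ∈ Finset.range m, β j) + β 0 := e1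
    linear_combination -e3

end

theorem t_TRANS1 (h : S_NOFIX) : S_TRANS1 := by
  intro d m c₀ z₀ hp hD0
  have hmu : mu d m c₀ z₀ = 1 := IsPrimitiveRoot.one_right_iff.mp hp.mul
  let β : ℕ → ℂ := fun n => (∏ j ∈ Finset.range n, ((d : ℂ) * ((fc d c₀)^[j] z₀) ^ (d - 1)))⁻¹
  have hβ0 : β 0 = 1 := by simp [β]
  have hβ : ∀ j, β (j + 1) = β j / ((d : ℂ) * ((fc d c₀)^[j] z₀) ^ (d - 1)) := by
    intro j
    simp only [β]
    rw [Finset.prod_range_succ, mul_inv, div_eq_mul_inv]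
  have hβm : β m = 1 := by
    simp only [β]
    rw [← mu_eq, hmu, inv_one]
  obtain ⟨D, hDz, hDs⟩ : ∃ D : ℕ → ℂ, D 0 = 0 ∧
      ∀ n, D (n + 1) = (d : ℂ) * ((fc d c₀)^[n] z₀) ^ (d - 1) * D n + 1 :=
    ⟨fun n => Nat.rec 0 (fun n x => (d : ℂ) * ((fc d c₀)^[n] z₀) ^ (d - 1) * x + 1) n, rfl,
      fun _ => rfl⟩
  have hder := der_par (y := fun _ => z₀) (hasDerivAt_const c₀ z₀) D hDz hDs m
  have hDm : D m = 0 := by
    rw [← hder.deriv]
    exact hD0
  have hsum : ∀ n, β n * D n = ∑ j ∈ Finset.range n, β (j + 1) := by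
    intro n
    induction n with
    | zero => simp [hDz]
    | succ n ih =>
      rw [Finset.sum_range_succ, ← ih, hDs, mul_add, mul_one, hβ]
      have := f_ne hp n
      generalize (d : ℂ) * ((fc d c₀)^[n] z₀) ^ (d - 1) = F at this ⊢
      field_simp
  have hs : ∑ j ∈ Finset.range m, β (j + 1) = 0 := by
    rw [← hsum, hDm, mul_zero]
  have hc := mk_cyc hp β 0 (fun j => by rw [hβ]; simp) (by rw [hβm, hβ0]) hs
  have h1 := (h _ _ _ _ _ _ hc).2 0
  rw [hβ0] at h1
  exact one_ne_zero h1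

end Pool.Agent.Y421.PC
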