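import Pool.Agent.Y421.PC.Base

set_option autoImplicit false

/-! # Transversality at satellite parameters -/

namespace Pool.Agent.Y421.PC

open Complex Metric Set Filter Topology Pool.Agent.H712R2 Pool.Agent.H713R2 N62a1eb23
open Pool.Agent.Y811.PC

/-- the logarithmic derivative of a product -/
theorem der_prod {m : ℕ} {f : ℕ → ℂ → ℂ} {g : ℕ → ℂ} {c₀ : ℂ}
    (hf : ∀ j, HasDerivAt (f j) (f j c₀ * g j) c₀) :
    HasDerivAt (fun c => ∏ j ∈ Finset.range m, f j c)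
      ((∏ j ∈ Finset.range m, f j c₀) * ∑ j ∈ Finset.range m, g j) c₀ := by
  induction m with
  | zero => simpa using hasDerivAt_const c₀ (1 : ℂ)
  | succ m ih =>
    have h1 := ih.mul (hf m)
    simp only [Finset.prod_range_succ, Finset.sum_range_succ]
    refine h1.congr_deriv ?_
    ring

/-- the periodic solution of an affine recursion -/
theorem aff_per (m : ℕ) (F s : ℕ → ℂ) (hF : (∏ j ∈ Finset.range m, F j)⁻¹ ≠ 1) :
    ∃ β : ℕ → ℂ, (∀ j, β (j + 1) = β j / F j - s j) ∧ β m = β 0 := by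
  obtain ⟨r, hr0, hr⟩ : ∃ r : ℕ → ℂ, r 0 = 0 ∧ ∀ n, r (n + 1) = r n / F n - s n :=
    ⟨fun n => Nat.rec 0 (fun n x => x / F n - s n) n, rfl, fun _ => rfl⟩
  let p : ℕ → ℂ := fun n => (∏ j ∈ Finset.range n, F j)⁻¹
  have hp0 : p 0 = 1 := by simp [p]
  have hp : ∀ n, p (n + 1) = p n / F n := by
    intro n
    simp only [p]
    rw [Finset.prod_range_succ, mul_inv, div_eq_mul_inv]
  have h1 : 1 - p m ≠ 0 := fun h => hF (sub_eq_zero.mp h).symm
  refine ⟨fun n => r m / (1 - p m) * p n + r n, fun j => ?_, ?_⟩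
  · show r m / (1 - p m) * p (j + 1) + r (j + 1) = (r m / (1 - p m) * p j + r j) / F j - s j
    rw [hp, hr]
    ring
  · show r m / (1 - p m) * p m + r m = r m / (1 - p m) * p 0 + r 0
    rw [hp0, hr0]
    field_simp
    ring

theorem t_TRANS2 (h : S_NOFIX) (h1 : S_IFT) (hA : S_ANA) : S_TRANS2 := by
  intro d m q c₀ z₀ hp hmu al κ halc hal0 half hκ hκ0
  have hd2 := hp.hd
  have hd0 : (d : ℂ) ≠ 0 := by exact_mod_cast (by omega : d ≠ 0)
  obtain ⟨δ, η, y, hδ, hη, hy, hy0, hyF, hyu⟩ := h1 (fun p : ℂ × ℂ => G d m p.1 p.2 - p.2) c₀ z₀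
    ((hA d m c₀ z₀).1.sub analyticAt_snd) (sub_eq_zero.mpr hp.fix) (by
      have h2 : HasDerivAt (fun y => G d m c₀ y - y) (mu d m c₀ z₀ - 1) z₀ := by
        rw [mu_eq]
        exact (der_iter d c₀ z₀ m).sub (hasDerivAt_id z₀)
      show deriv (fun y => G d m c₀ y - y) z₀ ≠ 0
      rw [h2.deriv]
      exact sub_ne_zero.mpr hmu)
  have heq : al =ᶠ[𝓝 c₀] y := by
    have h3 : ∀ᶠ c in 𝓝 c₀, al c ∈ ball z₀ η := by
      have := halc.tendsto
      rw [hal0] at this
      exact this (ball_mem_nhds z₀ hη)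
    filter_upwards [ball_mem_nhds c₀ hδ, h3, half] with c hc hac hfc
    exact hyu c hc (al c) hac (sub_eq_zero.mpr hfc)
  have hyd : HasDerivAt y (deriv y c₀) c₀ :=
    (hy.differentiableAt (ball_mem_nhds c₀ hδ)).hasDerivAt
  obtain ⟨D, hDz, hDs⟩ : ∃ D : ℕ → ℂ, D 0 = deriv y c₀ ∧
      ∀ n, D (n + 1) = (d : ℂ) * ((fc d c₀)^[n] (y c₀)) ^ (d - 1) * D n + 1 :=
    ⟨fun n => Nat.rec (deriv y c₀)
      (fun n x => (d : ℂ) * ((fc d c₀)^[n] (y c₀)) ^ (d - 1) * x + 1) n, rfl, fun _ => rfl⟩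
  have hder := der_par hyd D hDz hDs
  have hDm : D m = D 0 := by
    have h3 : (fun c => (fc d c)^[m] (y c)) =ᶠ[𝓝 c₀] y := by
      filter_upwards [ball_mem_nhds c₀ hδ] with c hc
      exact sub_eq_zero.mp (hyF c hc)
    rw [hDz]
    exact ((hder m).congr_of_eventuallyEq h3.symm).unique hyd
  rw [hy0] at hDs
  have hlog : HasDerivAt (fun c => mu d m c (y c)) (mu d m c₀ z₀ *
      ∑ j ∈ Finset.range m, ((d : ℂ) - 1) * D j / ((fc d c₀)^[j] z₀)) c₀ := by
    simp only [mu_eq]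
    have h3 := der_prod (m := m) (c₀ := c₀)
      (f := fun j c => (d : ℂ) * ((fc d c)^[j] (y c)) ^ (d - 1))
      (g := fun j => ((d : ℂ) - 1) * D j / ((fc d c₀)^[j] z₀)) (fun j => by
        have h4 := ((hder j).pow (d - 1)).const_mul (d : ℂ)
        refine h4.congr_deriv ?_
        simp only [hy0]
        have h5 : ((d - 1 : ℕ) : ℂ) = (d : ℂ) - 1 := by
          rw [Nat.cast_sub (by omega), Nat.cast_one]
        have h6 := b_ne hp j
        generalize (fc d c₀)^[j] z₀ = B at h6 ⊢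
        have h7 : B ^ (d - 1) = B ^ (d - 1 - 1) * B := by
          rw [← pow_succ]
          congr 1
          omega
        rw [h5, h7]
        field_simp)
    simpa only [hy0] using h3
  have hκ2 : κ = mu d m c₀ z₀ *
      ∑ j ∈ Finset.range m, ((d : ℂ) - 1) * D j / ((fc d c₀)^[j] z₀) := by
    refine (hκ.congr_of_eventuallyEq ?_).unique hlog
    filter_upwards [heq] with c hc
    rw [hc]
  rw [hκ0] at hκ2
  have hg : ∑ j ∈ Finset.range m, ((d : ℂ) - 1) * D j / ((fc d c₀)^[j] z₀) = 0 :=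
    (mul_eq_zero.mp hκ2.symm).resolve_left (mu_ne hp)
  obtain ⟨β, hβ, hβm⟩ := aff_per m (fun j => (d : ℂ) * ((fc d c₀)^[j] z₀) ^ (d - 1))
    (fun j => ((d : ℂ) - 1) * 1 / ((d : ℂ) * ((fc d c₀)^[j] z₀) ^ d)) (by
      rw [← mu_eq]
      intro h3
      exact hmu (inv_eq_one.mp h3))
  have hsum : ∀ n, ∑ j ∈ Finset.range n, β (j + 1) = β n * D n - β 0 * D 0 +
      ∑ j ∈ Finset.range n, ((d : ℂ) - 1) * D j / ((fc d c₀)^[j] z₀) := by
    intro n
    induction n with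
    | zero => simp
    | succ n ih =>
      rw [Finset.sum_range_succ, Finset.sum_range_succ, ih, hDs]
      have e1 : β (n + 1) * ((d : ℂ) * ((fc d c₀)^[n] z₀) ^ (d - 1)) =
          β n - ((d : ℂ) - 1) / ((fc d c₀)^[n] z₀) := by
        rw [hβ]
        have h6 := b_ne hp n
        generalize (fc d c₀)^[n] z₀ = B at h6 ⊢
        have h7 : B ^ d = B ^ (d - 1) * B := by
          rw [← pow_succ]
          congr 1
          omega
        rw [h7]
        field_simp
      have e2 : β (n + 1) * ((d : ℂ) * ((fc d c₀)^[n] z₀) ^ (d - 1) * D n + 1) =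
          (β n - ((d : ℂ) - 1) / ((fc d c₀)^[n] z₀)) * D n + β (n + 1) := by
        rw [← e1]
        ring
      rw [e2]
      ring
  have hs : ∑ j ∈ Finset.range m, β (j + 1) = 0 := by
    rw [hsum, hg, hβm, hDm]
    ring
  have hc := mk_cyc hp β 1 hβ hβm hs
  exact one_ne_zero (h _ _ _ _ _ _ hc).1

end Pool.Agent.Y421.PC
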